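import Pool.Agent.Helper9.FL.Stm
import Pool.Agent.Helper45.PP.Pos

/-!
Project FL (helper9), package FPOS: ample line bundles on flag bundles are positive.
-/

set_option autoImplicit false
set_option linter.unusedSectionVars false

namespace Pool.Agent.Helper80.FL

open FF Module MvPolynomial Pool.Agent.Helper9.FJ Pool.Agent.Helper9.PP Pool.Agent.Helper9.GR
open Pool.Agent.Helper9.FL Pool.Agent.Helper45.PP

variable {K : Type} [Field K] [Algebra ℂ K]

/-- integral substitutions -/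
theorem co_aeval {σ τ : Type} [Fintype σ] {P : Place ℂ K} {c : ℤ} (G : σ → MvPolynomial τ K)
    (hG : ∀ x α, Ge P 0 (coeff α (G x))) {s : MvPolynomial σ K} (hs : ∀ α, Ge P c (coeff α s))
    (α : τ →₀ ℕ) : Ge P c (coeff α (aeval G s)) := by
  classical
  rw [aeval_def, eval₂_eq']
  refine co_sum _ (fun β _ α => ?_) α
  have h1 : ∀ α, Ge P 0 (coeff α (∏ x, G x ^ β x)) := by
    intro α
    have := co_prod (P := P) (c := 0) Finset.univ (f := fun x => G x ^ β x)
      (fun x _ α => co_pow (hG x) _ α) α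
    rwa [mul_zero] at this
  have := co_mul (co_C (σ := τ) (hs β)) h1 α
  rw [add_zero] at this
  exact this

/-- integral determinants -/
theorem co_det {τ n : Type} [Fintype n] [DecidableEq n] {P : Place ℂ K}
    (M : Matrix n n (MvPolynomial τ K)) (hM : ∀ i j α, Ge P 0 (coeff α (M i j))) (α : τ →₀ ℕ) :
    Ge P 0 (coeff α M.det) := by
  classical
  rw [Matrix.det_apply']
  refine co_sum _ (fun σ _ α => ?_) α
  have h1 : (((Equiv.Perm.sign σ : ℤˣ) : ℤ) : MvPolynomial τ K) =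
      C (((Equiv.Perm.sign σ : ℤˣ) : ℤ) : K) := (map_intCast (C : K →+* MvPolynomial τ K) _).symm
  rw [h1]
  have h2 : ∀ α, Ge P 0 (coeff α (∏ i, M (σ i) i)) := by
    intro α
    have := co_prod (P := P) (c := 0) Finset.univ (f := fun i => M (σ i) i)
      (fun i _ α => hM _ _ α) α
    rwa [mul_zero] at this
  have := co_mul (co_C (σ := τ) (ge_int (P := P) ((Equiv.Perm.sign σ : ℤˣ) : ℤ))) h2 α
  rwa [add_zero] at this

variable {r l : ℕ}

theorem sl_eq (k : Fin l → ℕ) (blk : Fin r → ℕ) (E : Bundle K r) (P : Place ℂ K)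
    (Y : Matrix (Fin r) (Fin r) K) (s : MvPolynomial (Vr (fun j => Rk (k j) r)) K) :
    sl k blk E P Y s = aeval (fun x : Vr (fun j => Rk (k j) r) =>
      plu (fc (k x.1) (Y.map MvPolynomial.C * yx k blk)) x.2)
        (locM (fun j => wedge (k j) E) P s) := by
  have h : sl k blk E P Y = (aeval (fun x : Vr (fun j => Rk (k j) r) =>
      plu (fc (k x.1) (Y.map MvPolynomial.C * yx k blk)) x.2)).comp
      (aeval (fun x : Vr (fun j => Rk (k j) r) =>
        ∑ i, C (((wedge (k x.1) E).B P)⁻¹ x.2 i) *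
          (X ⟨x.1, i⟩ : MvPolynomial (Vr (fun j => Rk (k j) r)) K))) := by
    apply MvPolynomial.algHom_ext
    intro x
    rw [sl, AlgHom.comp_apply, aeval_X, aeval_X, map_sum]
    refine Finset.sum_congr rfl fun i _ => ?_
    rw [_root_.map_mul, aeval_X, aeval_C]
    rfl
  rw [h]
  rfl

theorem co_plu {P : Place ℂ K} (k : Fin l → ℕ) (blk : Fin r → ℕ) (Y : Matrix (Fin r) (Fin r) K)
    (hY : ∀ i j, Ge P 0 (Y i j)) (x : Vr (fun j => Rk (k j) r)) (α : FrF k blk →₀ ℕ) :
    Ge P 0 (coeff α (plu (fc (k x.1) (Y.map MvPolynomial.C * yx k blk)) x.2)) := by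
  classical
  unfold plu
  refine co_det _ (fun i j α => ?_) α
  rw [Matrix.submatrix_apply]
  unfold fc
  rw [Matrix.of_apply]
  split_ifs with h
  · rw [Matrix.mul_apply]
    refine co_sum _ (fun b _ α => ?_) α
    have h2 : ∀ α, Ge P 0 (coeff α (yx k blk (F := K) b ⟨(id j : Fin (k x.1)), h⟩)) := by
      intro α
      unfold yx
      rw [Matrix.of_apply]
      refine co_add (fun α => ?_) (fun α => ?_) α
      · split_ifs
        · rw [← C_1]
          exact co_C ge_one α
        · rw [coeff_zero]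
          exact ge_zero
      · split_ifs
        · exact co_X _ α
        · rw [coeff_zero]
          exact ge_zero
    have := co_mul (co_C (σ := FrF k blk) (hY (sub (k x.1) r x.2 i) b)) h2 α
    rw [add_zero] at this
    exact this
  · rw [coeff_zero]
    exact ge_zero

/-- the restrictions of sections to the slice -/
theorem co_sl {P : Place ℂ K} (k : Fin l → ℕ) (blk : Fin r → ℕ) (E : Bundle K r)
    (Y : Matrix (Fin r) (Fin r) K) (hY : ∀ i j, Ge P 0 (Y i j)) {a : Fin l → ℕ}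
    {N : Place ℂ K →₀ ℤ} {s : MvPolynomial (Vr (fun j => Rk (k j) r)) K}
    (hs : IsSecM (fun j => wedge (k j) E) a N s) (α : FrF k blk →₀ ℕ) :
    Ge P (-N P) (coeff α (sl k blk E P Y s)) := by
  rw [sl_eq]
  exact co_aeval _ (fun x α => co_plu k blk Y hY x α) (hs.2 P) α

/-- products of sections -/
theorem isSec_prod {R : Fin l → ℕ} {E : ∀ j, Bundle K (R j)} {a : Fin l → ℕ}
    {N : Place ℂ K →₀ ℤ} {M : ℕ} {s : Fin M → MvPolynomial (Vr R) K}
    (hs : ∀ i, IsSecM E a N (s i)) : IsSecM E (M • a) (M • N) (∏ i, s i) := by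
  classical
  refine ⟨?_, fun P α => ?_⟩
  · rw [isMh_iff]
    have h := IsWeightedHomogeneous.prod (w := wt (r := R)) Finset.univ s (fun _ => a)
      (fun i _ => isMh_iff.1 (hs i).1)
    rwa [Finset.sum_const, Finset.card_univ, Fintype.card_fin] at h
  · have h1 : locM E P (∏ i, s i) = ∏ i, locM E P (s i) := map_prod _ _ _
    rw [h1]
    have := co_prod (P := P) (c := -N P) Finset.univ (f := fun i => locM E P (s i))
      (fun i _ α => (hs i).2 P α) α
    refine this.mono (le_of_eq ?_)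
    rw [Finset.card_univ, Fintype.card_fin, Finsupp.smul_apply, nsmul_eq_mul]
    ring

theorem isSec_sum {R : Fin l → ℕ} {E : ∀ j, Bundle K (R j)} {a : Fin l → ℕ}
    {N : Place ℂ K →₀ ℤ} {ι : Type} (S : Finset ι) {s : ι → MvPolynomial (Vr R) K}
    (hs : ∀ i ∈ S, IsSecM E a N (s i)) : IsSecM E a N (∑ i ∈ S, s i) := by
  classical
  refine ⟨fun α hα j => ?_, fun P α => ?_⟩
  · rw [coeff_sum] at hα
    obtain ⟨i, hi, hi0⟩ := Finset.exists_ne_zero_of_sum_ne_zero hα
    exact (hs i hi).1 α hi0 j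
  · have h1 : locM E P (∑ i ∈ S, s i) = ∑ i ∈ S, locM E P (s i) := map_sum _ _ _
    rw [h1]
    exact co_sum _ (fun i hi α => (hs i hi).2 P α) α

theorem isSec_C {R : Fin l → ℕ} {E : ∀ j, Bundle K (R j)} {a : Fin l → ℕ}
    {N : Place ℂ K →₀ ℤ} (c : ℂ) {s : MvPolynomial (Vr R) K} (hs : IsSecM E a N s) :
    IsSecM E a N (C (algebraMap ℂ K c) * s) := by
  refine ⟨isMh_C_mul hs.1 _, fun P α => ?_⟩
  have h1 : locM E P (C (algebraMap ℂ K c) * s) = C (algebraMap ℂ K c) * locM E P s := by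
    unfold locM
    rw [_root_.map_mul, aeval_C]
    rfl
  rw [h1]
  have := co_mul (co_C (ge_const (P := P) c)) (hs.2 P) α
  rwa [zero_add] at this

/-- **Package FPOS.** -/
theorem fpos (hFSEC : S_FSEC) (hGROW : S_GROWG) (hJETS : S_FJETS) (hDEG : S_FDEG) : S_FPOS := by
  classical
  intro K _ _ _ r l k hk hk0 hkr hr E h a b hA
  obtain ⟨M, hM, hVA⟩ := hA
  have hpos := hDEG k hk hk0 hkr E (M • a) (M • b) hVA
  refine ⟨fun j => Nat.pos_of_mul_pos_left (hpos j), ?_⟩
  obtain ⟨P0, -⟩ := exists_place (k := ℂ) (K := K)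
  obtain ⟨t, -, ht⟩ := P0.surj
  have ht0 : t ≠ 0 := by rintro rfl; rw [P0.ord_zero] at ht; omega
  obtain ⟨Y, U, hY, hU, hYU, hYC⟩ := h.hC P0
  obtain ⟨N, hN⟩ : ∃ N, N = M • b := ⟨_, rfl⟩
  obtain ⟨a', ha'⟩ : ∃ a', a' = M • a := ⟨_, rfl⟩
  rw [← hN, ← ha'] at hVA
  obtain ⟨s0, s, hs0, hs, hjet⟩ := hJETS k hk hk0 hkr h.blk h.hblk E P0 t ht Y U hY hU hYU a' N hVA
  have htN : Ge P0 (N P0) (t ^ (N P0)) := Or.inr (by rw [P0.ord_zpow, ht]; simp)
  obtain ⟨Mb, hMb, c, hf0, hf1⟩ := hGROW P0 t ht _ _ (fun α => by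
      have := co_mul (co_C htN) (co_sl k h.blk E Y hY hs0) α
      rwa [add_neg_cancel] at this) (fun x α => by
      have := co_mul (co_C htN) (co_sl k h.blk E Y hY (hs x)) α
      rwa [add_neg_cancel] at this) hjet
  -- the section
  let sec : Option (Option (FrF k h.blk)) → MvPolynomial (Vr (fun j => Rk (k j) r)) K :=
    fun w => w.elim s0 s
  have hsec : ∀ w, IsSecM (fun j => wedge (k j) E) a' N (sec w) := by
    intro w
    cases w with
    | none => exact hs0
    | some x => exact hs x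
  let F : MvPolynomial (Vr (fun j => Rk (k j) r)) K :=
    ∑ w, C (algebraMap ℂ K (c w)) * ∏ i, sec (w i)
  have hF : IsSecM (fun j => wedge (k j) E) (Mb • a') (Mb • N) F :=
    isSec_sum _ fun w _ => isSec_C _ (isSec_prod fun i => hsec (w i))
  have hslF : C (t ^ (Mb * N P0)) * sl k h.blk E P0 Y F =
      ∑ w : Fin Mb → Option (Option (FrF k h.blk)), C (algebraMap ℂ K (c w)) *
        ∏ i, (w i).elim (C (t ^ N P0) * sl k h.blk E P0 Y s0)
          (fun x => C (t ^ N P0) * sl k h.blk E P0 Y (s x)) := by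
    change C (t ^ (Mb * N P0)) * sl k h.blk E P0 Y
      (∑ w, C (algebraMap ℂ K (c w)) * ∏ i, sec (w i)) = _
    rw [map_sum, Finset.mul_sum]
    refine Finset.sum_congr rfl fun w _ => ?_
    rw [_root_.map_mul, map_prod]
    have h2 : ∀ i, (w i).elim (C (t ^ N P0) * sl k h.blk E P0 Y s0)
        (fun x => C (t ^ N P0) * sl k h.blk E P0 Y (s x)) =
        C (t ^ N P0) * sl k h.blk E P0 Y (sec (w i)) := by
      intro i
      cases w i <;> rfl
    rw [Finset.prod_congr rfl (fun i _ => h2 i), Finset.prod_mul_distrib, Finset.prod_const,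
      Finset.card_univ, Fintype.card_fin, ← C_pow]
    have h3 : sl k h.blk E P0 Y (C (algebraMap ℂ K (c w))) = C (algebraMap ℂ K (c w)) := by
      unfold sl
      rw [aeval_C]
      rfl
    rw [h3, mul_left_comm]
    congr 2
    rw [mul_comm, zpow_mul, zpow_natCast]
  have hF0 : sl k h.blk E P0 Y F ≠ 0 := by
    intro h0
    rw [h0, mul_zero] at hslF
    exact hf0 hslF.symm
  have hF1 : ∀ α, Ge P0 (1 - (Mb • N) P0) (coeff α (sl k h.blk E P0 Y F)) := by
    intro α
    have h1 := hf1 α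
    rw [← hslF, coeff_C_mul] at h1
    refine Ge.of_mul (a := t ^ (Mb * N P0)) (zpow_ne_zero _ ht0) (h1.mono (le_of_eq ?_))
    rw [P0.ord_zpow, ht, Finsupp.smul_apply, nsmul_eq_mul]
    ring
  have key := hFSEC k hk hk0 hkr E h (Mb • a') (Mb • N) F hF P0 Y U hY hU hYU hYC hF0 hF1
  rw [ddeg_nsmul, hN, ddeg_nsmul, ha'] at key
  have hMz : (0 : ℝ) < M := by exact_mod_cast hM
  have hMbz : (0 : ℝ) < Mb := by exact_mod_cast hMb
  have h5 : (∑ j, ((Mb • (M • a)) j : ℕ) *
      (∑ c ∈ Finset.univ.filter (fun c : Fin r => (c : ℕ) < k j), h.m c)) =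
      Mb * (M * ∑ j, (a j : ℝ) *
        (∑ c ∈ Finset.univ.filter (fun c : Fin r => (c : ℕ) < k j), h.m c)) := by
    rw [Finset.mul_sum, Finset.mul_sum]
    refine Finset.sum_congr rfl fun j _ => ?_
    rw [Pi.smul_apply, Pi.smul_apply, smul_eq_mul, smul_eq_mul]
    push_cast
    ring
  rw [h5] at key
  push_cast at key
  by_contra hc
  push Not at hc
  have h7 : (Mb * M : ℝ) * (∑ j, (a j : ℝ) *
      (∑ c ∈ Finset.univ.filter (fun c : Fin r => (c : ℕ) < k j), h.m c) + ddeg b) ≤ 0 :=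
    mul_nonpos_of_nonneg_of_nonpos (by positivity) hc
  linarith

end Pool.Agent.Helper80.FL
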